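import Pool.Agent.Q41.GT.Stm4

/-!
# GT-L1 (helper225): from the projective line to affine coordinates
-/

set_option autoImplicit false

namespace Pool.Agent.Q225.GT

open Finset Polynomial FF
open Pool.Agent.W602.GT
open Pool.Agent.Q41.SU
open Pool.Agent.Q41.GT
open Pool.Agent.W277.UB Pool.Agent.W277.UG Pool.Agent.W277.UH

universe u v

/-- moving infinity out of a stable set (adapted from `Pool.Agent.Q144.SU.B.stable_reduce`) -/
theorem stable_red {K : Type u} [Field K] [Infinite K]
    (d : ℕ) (hd : 2 ≤ d)
    (p q : Polynomial K) (hmax : max p.natDegree q.natDegree = d) (hco : IsCoprime p q)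
    (P : Finset (Option K)) (hP : ∀ z ∈ P, ratP1 p q d z ∈ P) :
    ∃ (p' q' : Polynomial K) (P' : Finset K) (c : K), p'.natDegree ≤ d ∧ q'.natDegree = d ∧
      IsCoprime p' q' ∧ (∀ z ∈ P', q'.eval z ≠ 0 ∧ p'.eval z / q'.eval z ∈ P') ∧
      P'.card = P.card ∧ some c ∉ P ∧ (∀ z ∈ P, phc c z ∈ P') := by
  classical
  have hp : p.natDegree ≤ d := by rw [← hmax]; exact le_max_left _ _
  have hq : q.natDegree ≤ d := by rw [← hmax]; exact le_max_right _ _
  have hlead : p.coeff d ≠ 0 ∨ q.coeff d ≠ 0 := by
    rcases le_total p.natDegree q.natDegree with h | h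
    · right
      rw [max_eq_right h] at hmax
      rw [← hmax]
      apply leadingCoeff_ne_zero.mpr
      rintro rfl
      rw [natDegree_zero] at hmax
      omega
    · left
      rw [max_eq_left h] at hmax
      rw [← hmax]
      apply leadingCoeff_ne_zero.mpr
      rintro rfl
      rw [natDegree_zero] at hmax
      omega
  have hX : p - X * q ≠ 0 := by
    intro h0
    have h1 : p = X * q := sub_eq_zero.mp h0
    have h2 : IsUnit q := by
      obtain ⟨a, b, hab⟩ := hco
      rw [h1] at hab
      apply IsUnit.of_mul_eq_one (a * X + b)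
      rw [← hab]
      ring
    have h3 := natDegree_eq_zero_of_isUnit h2
    have h4 : p.natDegree ≤ 1 := by
      rw [h1]
      refine natDegree_mul_le.trans ?_
      rw [h3, add_zero]
      exact natDegree_X_le
    rw [h3] at hmax
    omega
  obtain ⟨c, hc⟩ := Infinite.exists_notMem_finset
    ((P.image fun z => z.getD 0) ∪ (p - X * q).roots.toFinset)
  rw [Finset.mem_union, not_or] at hc
  have hcP : some c ∉ P := by
    intro h
    apply hc.1
    exact Finset.mem_image.mpr ⟨some c, h, rfl⟩
  have hcr : p.eval c - c * q.eval c ≠ 0 := by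
    intro h
    apply hc.2
    rw [Multiset.mem_toFinset, mem_roots hX, IsRoot.def, eval_sub, eval_mul, eval_X]
    exact h
  have hpq : (p - C c * q).natDegree ≤ d :=
    (natDegree_sub_le _ _).trans (max_le hp ((natDegree_C_mul_le _ _).trans hq))
  have hq'd : (pc d (p - C c * q) c).natDegree = d := by
    apply le_antisymm (pc_degree _ _ _)
    apply le_natDegree_of_ne_zero
    rw [pc_coeff d _ hpq, eval_sub, eval_mul, eval_C]
    exact hcr
  have hco' := pc_coprime d (by omega) p q hp hq hco hlead c
  have hinj : Set.InjOn (phc c) (P : Set (Option K)) := by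
    intro z hz z' hz' h
    rcases z with _ | x
    · rcases z' with _ | x'
      · rfl
      · exfalso
        have hx' : x' ≠ c := by
          rintro rfl
          exact hcP hz'
        have h1 : (0 : K) = (x' - c)⁻¹ := h
        exact inv_ne_zero (sub_ne_zero.mpr hx') h1.symm
    · rcases z' with _ | x'
      · exfalso
        have hx : x ≠ c := by
          rintro rfl
          exact hcP hz
        have h1 : (x - c)⁻¹ = (0 : K) := h
        exact inv_ne_zero (sub_ne_zero.mpr hx) h1
      · have h1 : (x - c)⁻¹ = (x' - c)⁻¹ := h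
        have h2 := inv_injective h1
        have h3 : x = x' := sub_left_injective h2
        rw [h3]
  have hst : ∀ y ∈ P.image (phc c), (pc d (p - C c * q) c).eval y ≠ 0 ∧
      (pc d q c).eval y / (pc d (p - C c * q) c).eval y ∈ P.image (phc c) := by
    intro y hy
    obtain ⟨z, hz, rfl⟩ := Finset.mem_image.mp hy
    have hFz := hP z hz
    rcases z with _ | x
    · have hval : phc c (none : Option K) = 0 := rfl
      rw [hval, pc_eval_zero, pc_eval_zero, coeff_sub, coeff_C_mul]
      by_cases hqd : q.coeff d = 0
      · have hpd : p.coeff d ≠ 0 := hlead.resolve_right (fun h => h hqd)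
        rw [hqd, mul_zero, sub_zero, zero_div]
        rw [ratP1_none0 p q d hqd] at hFz
        exact ⟨hpd, Finset.mem_image.mpr ⟨none, hFz, rfl⟩⟩
      · rw [ratP1_none p q d hqd] at hFz
        have h1 : p.coeff d / q.coeff d ≠ c := by
          intro h
          rw [h] at hFz
          exact hcP hFz
        have h2 : p.coeff d - c * q.coeff d ≠ 0 := by
          intro h
          apply h1
          rw [div_eq_iff hqd]
          exact sub_eq_zero.mp h
        refine ⟨h2, Finset.mem_image.mpr ⟨_, hFz, ?_⟩⟩
        show (p.coeff d / q.coeff d - c)⁻¹ = _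
        rw [div_sub' hqd, inv_div, mul_comm (q.coeff d) c]
    · have hxc : x ≠ c := by
        rintro rfl
        exact hcP hz
      have h0 : x - c ≠ 0 := sub_ne_zero.mpr hxc
      have hval : phc c (some x) = (x - c)⁻¹ := rfl
      have e1 := pc_eval_inv d q hq c x hxc
      have e2 := pc_eval_inv d (p - C c * q) hpq c x hxc
      rw [eval_sub, eval_mul, eval_C] at e2
      rw [hval]
      have hpow : (x - c) ^ d ≠ 0 := pow_ne_zero _ h0
      have hratio : (pc d q c).eval (x - c)⁻¹ / (pc d (p - C c * q) c).eval (x - c)⁻¹ =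
          q.eval x / (p.eval x - c * q.eval x) := by
        have h9 : (pc d q c).eval (x - c)⁻¹ / (pc d (p - C c * q) c).eval (x - c)⁻¹ =
            ((x - c) ^ d * (pc d q c).eval (x - c)⁻¹) /
              ((x - c) ^ d * (pc d (p - C c * q) c).eval (x - c)⁻¹) :=
          (mul_div_mul_left _ _ hpow).symm
        rw [h9, e1, e2]
      rw [hratio]
      have hne' : p.eval x - c * q.eval x ≠ 0 →
          (pc d (p - C c * q) c).eval (x - c)⁻¹ ≠ 0 := by
        intro h h'
        rw [h', mul_zero] at e2
        exact h e2.symm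
      by_cases hqx : q.eval x = 0
      · have hpx : p.eval x ≠ 0 := by
          intro hpx
          obtain ⟨a, b, hab⟩ := hco
          have := congrArg (eval x) hab
          rw [eval_add, eval_mul, eval_mul, hpx, hqx, mul_zero, mul_zero, add_zero,
            eval_one] at this
          exact zero_ne_one this
        rw [ratP1_some0 p q d x hqx] at hFz
        refine ⟨hne' (by rw [hqx, mul_zero, sub_zero]; exact hpx),
          Finset.mem_image.mpr ⟨none, hFz, ?_⟩⟩
        rw [hqx, zero_div]
        rfl
      · rw [ratP1_some p q d x hqx] at hFz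
        have h1 : p.eval x / q.eval x ≠ c := by
          intro h
          rw [h] at hFz
          exact hcP hFz
        have h2 : p.eval x - c * q.eval x ≠ 0 := by
          intro h
          apply h1
          rw [div_eq_iff hqx]
          exact sub_eq_zero.mp h
        refine ⟨hne' h2, Finset.mem_image.mpr ⟨_, hFz, ?_⟩⟩
        show (p.eval x / q.eval x - c)⁻¹ = _
        rw [div_sub' hqx, inv_div, mul_comm (q.eval x) c]
  exact ⟨_, _, P.image (phc c), c, pc_degree _ _ _, hq'd, hco', hst,
    Finset.card_image_of_injOn hinj, hcP, fun z hz => Finset.mem_image_of_mem _ hz⟩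

/-- the ratios of the coefficients of a map with enough values in `F` at points of `F` -/
theorem rats_sub {k K : Type} [Field k] [Field K] [Algebra k K] (F : IntermediateField k K)
    (d : ℕ) (hd : 2 ≤ d) (p q : K[X]) (hmax : max p.natDegree q.natDegree = d)
    (hco : IsCoprime p q) (T : Finset K) (y : K → K)
    (hT : ∀ z ∈ T, z ∈ F ∧ y z ∈ F ∧ p.eval z = y z * q.eval z) (hcard : 2 * d + 1 ≤ T.card) :
    rats p q ⊆ (F : Set K) := by
  classical
  have hp : p.natDegree ≤ d := by rw [← hmax]; exact le_max_left _ _
  have hq : q.natDegree ≤ d := by rw [← hmax]; exact le_max_right _ _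
  have hp0 : p ≠ 0 := by
    rintro rfl
    have h1 : IsUnit q := isCoprime_zero_left.1 hco
    have h2 := natDegree_eq_zero_of_isUnit h1
    rw [h2, natDegree_zero] at hmax
    omega
  have hq0 : q ≠ 0 := by
    rintro rfl
    have h1 : IsUnit p := isCoprime_zero_right.1 hco
    have h2 := natDegree_eq_zero_of_isUnit h1
    rw [h2, natDegree_zero] at hmax
    omega
  -- a linear functional which does not kill the leading coefficient of `p`
  obtain ⟨φ, hφ⟩ : ∃ φ : Module.Dual F K, φ p.leadingCoeff ≠ 0 := by
    by_contra hcon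
    push Not at hcon
    exact hp0 (leadingCoeff_eq_zero.1 ((Module.forall_dual_apply_eq_zero_iff F _).1 hcon))
  let g : K → K := fun x => (φ x : K)
  have hg0 : g 0 = 0 := by simp [g]
  have hgF : ∀ x, g x ∈ F := fun x => (φ x).2
  have hgadd : ∀ x y, g (x + y) = g x + g y := fun x y => by simp [g]
  have hgmul : ∀ a ∈ F, ∀ x, g (a * x) = a * g x := by
    intro a ha x
    have h1 : a * x = (⟨a, ha⟩ : F) • x := rfl
    show ((φ (a * x) : F) : K) = a * (φ x : K)
    rw [h1, map_smul]
    rfl
  let t : K[X] → K[X] := fun f => ∑ i ∈ range (d + 1), C (g (f.coeff i)) * X ^ i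
  have htc : ∀ f : K[X], f.natDegree ≤ d → ∀ i, (t f).coeff i = g (f.coeff i) := by
    intro f hf i
    show (∑ i ∈ range (d + 1), C (g (f.coeff i)) * X ^ i).coeff i = _
    rw [finsetSum_coeff]
    simp only [coeff_C_mul, coeff_X_pow]
    simp only [mul_ite, mul_one, mul_zero]
    rw [Finset.sum_ite_eq (range (d + 1)) i]
    split_ifs with h
    · rfl
    · rw [Finset.mem_range] at h
      rw [coeff_eq_zero_of_natDegree_lt (by omega), hg0]
  have htd : ∀ f : K[X], (t f).natDegree ≤ d := by
    intro f
    refine natDegree_sum_le_of_forall_le _ _ fun i hi => ?_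
    rw [Finset.mem_range] at hi
    exact (natDegree_C_mul_X_pow_le _ _).trans (by omega)
  have hte : ∀ f : K[X], f.natDegree ≤ d → ∀ z ∈ F, (t f).eval z = g (f.eval z) := by
    intro f hf z hz
    have h1 : f.eval z = ∑ i ∈ range (d + 1), z ^ i * f.coeff i := by
      rw [eval_eq_sum_range' (by omega : f.natDegree < d + 1)]
      exact Finset.sum_congr rfl fun i _ => mul_comm _ _
    have h2 : g (∑ i ∈ range (d + 1), z ^ i * f.coeff i) =
        ∑ i ∈ range (d + 1), g (z ^ i * f.coeff i) := by
      show ((φ _ : F) : K) = _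
      rw [map_sum]
      push_cast
      rfl
    rw [h1, h2]
    show (∑ i ∈ range (d + 1), C (g (f.coeff i)) * X ^ i).eval z = _
    rw [eval_finsetSum]
    refine Finset.sum_congr rfl fun i _ => ?_
    rw [hgmul _ (pow_mem hz i), eval_mul, eval_C, eval_pow, eval_X, mul_comm]
  -- the main identity
  have hid : p * t q - t p * q = 0 := by
    apply eq_zero_of_natDegree_lt_card_of_eval_eq_zero' _ T
    · intro z hz
      obtain ⟨h1, h2, h3⟩ := hT z hz
      rw [eval_sub, eval_mul, eval_mul, hte p hp z h1, hte q hq z h1, h3, hgmul _ h2]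
      ring
    · refine lt_of_le_of_lt (natDegree_sub_le _ _) (max_lt ?_ ?_)
      · refine lt_of_le_of_lt natDegree_mul_le ?_
        have := htd q
        omega
      · refine lt_of_le_of_lt natDegree_mul_le ?_
        have := htd p
        omega
  have hid' : p * t q = t p * q := sub_eq_zero.1 hid
  obtain ⟨u, hu⟩ : p ∣ t p := hco.dvd_of_dvd_mul_right (Dvd.intro _ hid')
  have hv : t q = q * u := by
    rw [hu] at hid'
    have : p * t q = p * (q * u) := by rw [hid']; ring
    exact mul_left_cancel₀ hp0 this
  have hu0 : u ≠ 0 := by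
    rintro rfl
    rw [mul_zero] at hu
    have h1 := htc p hp p.natDegree
    rw [hu, coeff_zero] at h1
    exact hφ (by
      have : ((φ p.leadingCoeff : F) : K) = 0 := h1.symm
      exact_mod_cast this)
  have hudeg : u.natDegree = 0 := by
    have h1 := htd p
    have h2 := htd q
    rw [hu, natDegree_mul hp0 hu0] at h1
    rw [hv, natDegree_mul hq0 hu0] at h2
    omega
  obtain ⟨c, hc⟩ : ∃ c, u = C c := ⟨_, eq_C_of_natDegree_eq_zero hudeg⟩
  have hc0 : c ≠ 0 := by
    rintro rfl
    exact hu0 (by rw [hc, C_0])
  have hall : ∀ f : K[X], (f = p ∨ f = q) → ∀ i, f.coeff i * c ∈ F := by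
    intro f hf i
    rcases hf with rfl | rfl
    · have h1 := htc f hp i
      rw [hu, hc, coeff_mul_C] at h1
      rw [h1]
      exact hgF _
    · have h1 := htc f hq i
      rw [hv, hc, coeff_mul_C] at h1
      rw [h1]
      exact hgF _
  rintro _ ⟨f, g', hf, hg', i, j, rfl⟩
  have h1 : f.coeff i / g'.coeff j = (f.coeff i * c) / (g'.coeff j * c) :=
    (mul_div_mul_right _ _ hc0).symm
  rw [h1]
  exact div_mem (hall f hf i) (hall g' hg' j)

theorem aff : S_aff := by
  intro k K _ _ _ _ d hd p q hco hmax P hP hn h0 h1 hcard halg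
  classical
  have : CharZero K := charZero_of_injective_algebraMap (algebraMap k K).injective
  obtain ⟨p', q', P', c, hp', hq', hco', hst, hc, hcP, hmem⟩ := stable_red d hd p q hmax hco P hP
  refine ⟨p', q', P', hp', hq', hco', hst, hc, ?_⟩
  set F := IntermediateField.adjoin k (crs P') with hF
  have hc0 : c ≠ 0 := by
    rintro rfl
    exact hcP h0
  have hc1 : c ≠ 1 := by
    rintro rfl
    exact hcP h1
  -- the points of `P` are in `F`
  have hz : ∀ z : K, some z ∈ P → z ∈ F := by
    intro z hzP
    by_cases hz0 : z = 0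
    · rw [hz0]; exact zero_mem F
    have hzc : z ≠ c := by
      rintro rfl
      exact hcP hzP
    apply IntermediateField.subset_adjoin
    have hzc' : z - c ≠ 0 := sub_ne_zero.2 hzc
    have h1c : (1 : K) - c ≠ 0 := sub_ne_zero.2 (Ne.symm hc1)
    have h0c : (0 : K) - c ≠ 0 := by rw [zero_sub]; exact neg_ne_zero.2 hc0
    refine ⟨phc c (some 0), hmem _ h0, phc c (some 1), hmem _ h1, phc c none, hmem _ hn,
      phc c (some z), hmem _ hzP, ?_, ?_, ?_, ?_, ?_, ?_⟩
    · show (0 - c)⁻¹ ≠ (1 - c)⁻¹
      intro h
      have := inv_injective h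
      exact zero_ne_one (sub_left_injective this)
    · show (0 - c)⁻¹ ≠ 0
      exact inv_ne_zero h0c
    · show (1 - c)⁻¹ ≠ 0
      exact inv_ne_zero h1c
    · show (z - c)⁻¹ ≠ 0
      exact inv_ne_zero hzc'
    · show (z - c)⁻¹ ≠ (0 - c)⁻¹
      intro h
      have := inv_injective h
      exact hz0 (sub_left_injective this)
    · show z = (((z - c)⁻¹ - (0 - c)⁻¹) * ((1 - c)⁻¹ - 0)) / (((z - c)⁻¹ - 0) * ((1 - c)⁻¹ - (0 - c)⁻¹))
      rw [zero_sub]
      field_simp
      ring
  -- the finite points with a finite value
  let T : Finset K := (Finset.eraseNone P).filter fun z => q.eval z ≠ 0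
  have hTcard : 2 * d + 1 ≤ T.card := by
    have h2 : (Finset.eraseNone P).card + 1 = P.card := by
      rw [Finset.card_eraseNone_of_mem hn]
      have : 0 < P.card := Finset.card_pos.2 ⟨_, hn⟩
      omega
    have hq0 : q ≠ 0 := by
      rintro rfl
      have h1 : IsUnit p := isCoprime_zero_right.1 hco
      have h2 := natDegree_eq_zero_of_isUnit h1
      rw [h2, natDegree_zero] at hmax
      omega
    have h3 : ((Finset.eraseNone P).filter fun z => ¬ q.eval z ≠ 0).card ≤ d := by
      have h4 : ((Finset.eraseNone P).filter fun z => ¬ q.eval z ≠ 0) ⊆ q.roots.toFinset := by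
        intro z hz
        rw [Finset.mem_filter] at hz
        rw [Multiset.mem_toFinset, mem_roots hq0, IsRoot.def]
        exact not_not.1 hz.2
      refine (Finset.card_le_card h4).trans ((Multiset.toFinset_card_le _).trans
        ((card_roots' q).trans ?_))
      rw [← hmax]
      exact le_max_right _ _
    have h5 := Finset.card_filter_add_card_filter_not (s := Finset.eraseNone P)
      (fun z => q.eval z ≠ 0)
    have h6 : T.card = ((Finset.eraseNone P).filter fun z => q.eval z ≠ 0).card := rfl
    omega
  have hsub := rats_sub F d hd p q hmax hco T (fun z => p.eval z / q.eval z) (by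
    intro z hzT
    rw [Finset.mem_filter, Finset.mem_eraseNone] at hzT
    refine ⟨hz z hzT.1, ?_, (div_mul_cancel₀ _ hzT.2).symm⟩
    have h2 := hP _ hzT.1
    rw [ratP1_some p q d z hzT.2] at h2
    exact hz _ h2) hTcard
  have hle : IntermediateField.adjoin k (rats p q) ≤ F :=
    IntermediateField.adjoin_le_iff.2 hsub
  letI : Algebra (IntermediateField.adjoin k (rats p q)) F :=
    (IntermediateField.inclusion hle).toRingHom.toAlgebra
  haveI : IsScalarTower (IntermediateField.adjoin k (rats p q)) F K :=
    IsScalarTower.of_algebraMap_eq fun x => rfl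
  exact Algebra.IsAlgebraic.tower_top (K := IntermediateField.adjoin k (rats p q)) F

end Pool.Agent.Q225.GT
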