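import Pool.Agent.Q41.GT.Stm2
import Pool.Agent.W277.UH.G1

/-! Job GT-H2 of project GT (helper41): the orders of `gfn`. -/

namespace Pool.Agent.Q225.GT

open Finset Polynomial FF
open Pool.Agent.Q41.SU Pool.Agent.Q41.GT

theorem gfn' : S_gfn := by
  intro k K _ _ _ v E₀ d hE hd p q hp hq hco P hP α hα0 hα
  have hE0 : (E₀ : ℝ) ≠ 0 := by
    have : (0 : ℝ) < E₀ := by exact_mod_cast hE
    exact this.ne'
  have hres : resultant q p d d ≠ 0 :=
    Pool.Agent.W277.UH.res_ne d p q hp hq (by omega) hco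
  constructor
  · intro z hz
    have h1 := congrArg v.ord (hα z hz)
    obtain ⟨hq0, -⟩ := hP z hz
    rw [v.ord_pow, v.ord_mul (pow_ne_zero _ hq0) (hα0 _), v.ord_pow] at h1
    have h2 : (d : ℝ) * v.ord (α z) = E₀ * v.ord (q.eval z) +
        v.ord (α (p.eval z / q.eval z)) := by exact_mod_cast h1
    field_simp
    linarith
  · intro z hz z' hz' hne
    have hzz : z - z' ≠ 0 := sub_ne_zero.2 hne
    have hnum : (z - z') ^ (E₀ * (d * (d - 1))) * resultant q p d d ^ E₀ ≠ 0 :=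
      mul_ne_zero (pow_ne_zero _ hzz) (pow_ne_zero _ hres)
    have hden : (α z * α z') ^ (d * (d - 1)) ≠ 0 :=
      pow_ne_zero _ (mul_ne_zero (hα0 z) (hα0 z'))
    refine ⟨div_ne_zero hnum hden, ?_⟩
    have h1 : v.ord (gfn E₀ d α p q z z') = ((E₀ * (d * (d - 1)) : ℕ) : ℤ) * v.ord (z - z') +
        (E₀ : ℤ) * v.ord (resultant q p d d) -
        ((d * (d - 1) : ℕ) : ℤ) * (v.ord (α z) + v.ord (α z')) := by
      unfold gfn
      rw [v.ord_div hnum hden, v.ord_mul (pow_ne_zero _ hzz) (pow_ne_zero _ hres), v.ord_pow,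
        v.ord_pow, v.ord_pow, v.ord_mul (hα0 z) (hα0 z')]
    rw [h1]
    unfold gg
    have hd1 : ((d - 1 : ℕ) : ℝ) = (d : ℝ) - 1 := by
      rw [Nat.cast_sub (by omega), Nat.cast_one]
    have hd0 : (d : ℝ) ≠ 0 := by
      have : (0 : ℝ) < d := by exact_mod_cast (by omega : 0 < d)
      exact this.ne'
    have hd2 : (d : ℝ) - 1 ≠ 0 := by
      have : (2 : ℝ) ≤ d := by exact_mod_cast hd
      linarith
    push_cast
    rw [hd1]
    field_simp
    ring

end Pool.Agent.Q225.GT
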