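import Pool.Agent.Q41.GT.Stm3

/-! Job GT-K5 of project GT (helper41): fields with a large stable set are of general type. -/

namespace Pool.Agent.Q225.GT

open Pool.Agent.Q41.GT

theorem k5 : S_data → S_gtf → S_gt := by
  intro hd hg d hd2
  obtain ⟨B, hB⟩ := hd d hd2
  refine ⟨B, ?_⟩
  intro k K _ _ _ _ w hw htr p q hp hq hpq P hP hBP hcr
  obtain ⟨ι, _, F, C, C', R, H, hC, hH, hHv, hF, hQ⟩ := hB k K p q hp hq hpq P hP hBP hcr
  exact hg k K w hw htr ι F C C' R H hC hH hHv hF (fun t ht => hQ w t ht)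

end Pool.Agent.Q225.GT
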