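import Pool.Agent.Q41.GT.Stm4

/-!
# GT-L2 (helper225): moduli of maps with many preperiodic points
-/

set_option autoImplicit false

namespace Pool.Agent.Q225.GT

open Finset Polynomial FF
open Pool.Agent.W602.GT
open Pool.Agent.Q41.SU
open Pool.Agent.Q41.GT
open Pool.Agent.W277.UH (ratP1)

theorem prep (h1 : S_aff) (h2 : S_gt) : S_prep := by
  intro d hd
  obtain ⟨B0, hB0⟩ := h2 d hd
  refine ⟨max B0 (3 * d + 7), ?_⟩
  intro k K _ _ _ _ w hw htr p q hpq hmax h01 halg hB
  classical
  obtain ⟨T, hT, hTc⟩ := Set.exists_subset_encard_eq hB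
  have hTfin : T.Finite := Set.finite_of_encard_eq_coe hTc
  set f : Option K → Option K := ratP1 p q d with hf
  -- the union of the orbits
  let S0 : Set (Option K) := T ∪ {none, some 0, some 1}
  have hS0fin : S0.Finite := hTfin.union (by simp)
  let S : Set (Option K) := ⋃ z ∈ S0, Set.range fun m : ℕ => f^[m] z
  have hSfin : S.Finite := by
    refine hS0fin.biUnion fun z hz => ?_
    rcases hz with hz | hz
    · exact hT hz
    · apply h01 z
      simpa using hz
  have hS0S : S0 ⊆ S := by
    intro z hz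
    exact Set.mem_biUnion hz ⟨0, rfl⟩
  have hSf : ∀ z ∈ S, f z ∈ S := by
    intro z hz
    simp only [S, Set.mem_iUnion, Set.mem_range] at hz ⊢
    obtain ⟨y, hy, m, rfl⟩ := hz
    exact ⟨y, hy, m + 1, Function.iterate_succ_apply' f m y⟩
  have hcard : max B0 (3 * d + 7) ≤ hSfin.toFinset.card := by
    have h3 : T.encard ≤ S.encard := Set.encard_le_encard
      (fun z hz => hS0S (Or.inl hz))
    rw [hTc, hSfin.encard_eq_coe_toFinset_card] at h3
    exact_mod_cast h3
  obtain ⟨p', q', P', hp', hq', hpq', hst, hc, halg'⟩ := h1 k K d hd p q hpq hmax hSfin.toFinset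
    (fun z hz => by
      rw [Set.Finite.mem_toFinset] at hz ⊢
      exact hSf z hz)
    (by rw [Set.Finite.mem_toFinset]; exact hS0S (Or.inr (by simp)))
    (by rw [Set.Finite.mem_toFinset]; exact hS0S (Or.inr (by simp)))
    (by rw [Set.Finite.mem_toFinset]; exact hS0S (Or.inr (by simp)))
    (le_trans (le_max_right _ _) hcard) halg
  exact hB0 k K w hw htr p' q' hp' hq' hpq' P' hst
    (by rw [hc]; exact le_trans (le_max_left _ _) hcard) halg'

end Pool.Agent.Q225.GT
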