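import Pool.Agent.Q41.GT.Stm6
import Pool.Agent.Q41.GT.Elem
import Pool.Agent.Q225.GT.Aff
import Pool.Agent.W603.LV.Root

/-!
# AH-A5 (helper225): heights on the moduli spaces
-/

set_option autoImplicit false

namespace Pool.Agent.Q225.GT

open Finset Polynomial FF
open Pool.Agent.W603.LV (hgt hgt_zero hgt_mul hgt_inv hgt_mvpoly hgt_nonneg canDeg)
open Pool.Agent.Q41.SU Pool.Agent.Q41.GT
open Pool.Agent.W277.UB Pool.Agent.W277.UG Pool.Agent.W277.UH

/-- the matrix of the linear system for the coefficients of a map in normal form -/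
noncomputable def sysM {R : Type*} [CommRing R] {d : ℕ} (z w : Sg d → R) :
    Matrix (Sg d) (Sg d) R :=
  Matrix.of fun j i => Sum.elim (fun i : Fin d => z j ^ (i : ℕ) - if (i : ℕ) = 0 then w j else 0)
    (fun i : Fin (d - 1) => -(w j * z j ^ ((i : ℕ) + 1))) i

lemma sysM_mulVec {R : Type*} [CommRing R] {d : ℕ} (hd : 1 ≤ d) (z w y : Sg d → R) (j : Sg d) :
    (sysM z w).mulVec y j =
      (num d y).eval (z j) - w j * ((den d y).eval (z j) - z j ^ d) := by
  have h1 : (num d y).eval (z j) = ∑ i : Fin d, y (Sum.inl i) * z j ^ (i : ℕ) := by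
    unfold num
    rw [eval_finsetSum]
    simp
  have h2 : (den d y).eval (z j) - z j ^ d =
      ∑ i : Fin (d - 1), y (Sum.inr i) * z j ^ ((i : ℕ) + 1) + y (Sum.inl ⟨0, hd⟩) := by
    unfold den
    rw [eval_add, eval_add, eval_finsetSum, eval_pow, eval_X, eval_C, num_coeff y 0 hd]
    simp only [eval_mul, eval_C, eval_pow, eval_X]
    ring
  have h3 : ∑ i : Fin d, (if (i : ℕ) = 0 then w j else 0) * y (Sum.inl i) =
      w j * y (Sum.inl ⟨0, hd⟩) := by
    rw [Finset.sum_eq_single (⟨0, hd⟩ : Fin d)]
    · rw [if_pos rfl]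
    · intro i _ hi
      rw [if_neg, zero_mul]
      intro h
      exact hi (Fin.ext h)
    · intro h
      exact absurd (Finset.mem_univ _) h
  rw [h1, h2]
  unfold Matrix.mulVec dotProduct sysM
  rw [Fintype.sum_sum_type]
  simp only [Matrix.of_apply, Sum.elim_inl, Sum.elim_inr, sub_mul]
  rw [Finset.sum_sub_distrib, h3, mul_add, Finset.mul_sum]
  have h4 : ∑ i : Fin d, z j ^ (i : ℕ) * y (Sum.inl i) = ∑ i : Fin d, y (Sum.inl i) * z j ^ (i : ℕ) :=
    Finset.sum_congr rfl fun i _ => mul_comm _ _
  have h5 : ∑ i : Fin (d - 1), -(w j * z j ^ ((i : ℕ) + 1)) * y (Sum.inr i) =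
      -∑ i : Fin (d - 1), w j * (y (Sum.inr i) * z j ^ ((i : ℕ) + 1)) := by
    rw [← Finset.sum_neg_distrib]
    exact Finset.sum_congr rfl fun i _ => by ring
  rw [h4, h5]
  ring

lemma den_sub_degree {K : Type*} [Field K] {d : ℕ} (hd : 1 ≤ d) (y : Sg d → K) :
    (den d y - X ^ d).degree < (d : WithBot ℕ) := by
  have h : den d y - X ^ d = ∑ i : Fin (d - 1), C (y (Sum.inr i)) * X ^ ((i : ℕ) + 1) +
      C ((num d y).coeff 0) := by
    unfold den
    ring
  rw [h]
  exact mid_degree_lt y hd

lemma sysM_det {K : Type*} [Field K] {d : ℕ} (hd : 2 ≤ d) (x : Sg d → K)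
    (hco : IsCoprime (num d x) (den d x)) (z w : Sg d → K) (hz : Function.Injective z)
    (hz0 : ∀ j, z j ≠ 0) (hw : ∀ j, (num d x).eval (z j) = w j * (den d x).eval (z j)) :
    (sysM z w).det ≠ 0 := by
  classical
  intro hdet
  obtain ⟨y, hy0, hy⟩ := Matrix.exists_mulVec_eq_zero_iff.2 hdet
  have hd1 : 1 ≤ d := by omega
  have hdy : (den d y).coeff 0 = (num d y).coeff 0 := den_coeff_zero y hd1
  have hdx : (den d x).coeff 0 = (num d x).coeff 0 := den_coeff_zero x hd1
  set D0 := den d y - X ^ d with hD0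
  have hD0deg : D0.degree < d := den_sub_degree hd1 y
  have hD0c : D0.coeff 0 = (num d y).coeff 0 := by
    rw [hD0, coeff_sub, coeff_X_pow, if_neg (by omega), sub_zero, hdy]
  have hnd : ∀ u : Sg d → K, (num d u).natDegree < d := by
    intro u
    by_cases h0 : num d u = 0
    · rw [h0, natDegree_zero]
      omega
    · exact (natDegree_lt_iff_degree_lt h0).2 (num_degree_lt u)
  have hD0n : D0.natDegree < d := by
    by_cases h0 : D0 = 0
    · rw [h0, natDegree_zero]
      omega
    · exact (natDegree_lt_iff_degree_lt h0).2 hD0deg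
  have hF : num d y * den d x - num d x * D0 = 0 := by
    apply eq_zero_of_natDegree_lt_card_of_eval_eq_zero' _ (insert 0 (univ.image z))
    · intro c hc
      rw [Finset.mem_insert, Finset.mem_image] at hc
      rcases hc with rfl | ⟨j, -, rfl⟩
      · rw [eval_sub, eval_mul, eval_mul, ← coeff_zero_eq_eval_zero, ← coeff_zero_eq_eval_zero,
          ← coeff_zero_eq_eval_zero, ← coeff_zero_eq_eval_zero, hD0c, hdx]
        ring
      · have h1 := congrFun hy j
        rw [sysM_mulVec hd1, Pi.zero_apply] at h1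
        have h2 : D0.eval (z j) = (den d y).eval (z j) - z j ^ d := by
          rw [hD0, eval_sub, eval_pow, eval_X]
        rw [eval_sub, eval_mul, eval_mul, h2, hw j]
        linear_combination (den d x).eval (z j) * h1
    · have h1 : (insert 0 (univ.image z)).card = d + (d - 1) + 1 := by
        rw [Finset.card_insert_of_notMem, Finset.card_image_of_injective _ hz, Finset.card_univ,
          Fintype.card_sum, Fintype.card_fin, Fintype.card_fin]
        intro h
        obtain ⟨j, -, hj⟩ := Finset.mem_image.1 h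
        exact hz0 j hj
      rw [h1]
      refine lt_of_le_of_lt (natDegree_sub_le _ _) (max_lt ?_ ?_)
      · refine lt_of_le_of_lt natDegree_mul_le ?_
        rw [den_natDegree x hd1]
        have := hnd y
        omega
      · refine lt_of_le_of_lt natDegree_mul_le ?_
        have := hnd x
        omega
  have hF' : num d y * den d x = num d x * D0 := sub_eq_zero.1 hF
  have hdvd : den d x ∣ D0 := hco.symm.dvd_of_dvd_mul_left (Dvd.intro_left _ hF')
  have hD00 : D0 = 0 := by
    apply eq_zero_of_dvd_of_degree_lt hdvd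
    rw [degree_eq_natDegree (den_monic x hd1).ne_zero, den_natDegree x hd1]
    exact hD0deg
  have hn0 : num d y = 0 := by
    rw [hD00, mul_zero] at hF'
    exact (mul_eq_zero.1 hF').resolve_right (den_monic x hd1).ne_zero
  apply hy0
  funext i
  rcases i with i | i
  · have h1 := num_coeff y i i.2
    rw [hn0, coeff_zero] at h1
    exact h1.symm
  · have h1 := den_coeff y i i.2
    have h2 : den d y = D0 + X ^ d := by rw [hD0]; ring
    rw [h2, hD00, zero_add, coeff_X_pow, if_neg (by have := i.2; omega)] at h1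
    exact h1.symm

lemma totalDegree_det {σ k n : Type*} [Field k] [Fintype n] [DecidableEq n]
    (A : Matrix n n (MvPolynomial σ k)) (D : ℕ) (h : ∀ i j, (A i j).totalDegree ≤ D) :
    A.det.totalDegree ≤ Fintype.card n * D := by
  rw [Matrix.det_apply']
  refine MvPolynomial.totalDegree_finsetSum_le fun π _ => ?_
  refine (MvPolynomial.totalDegree_mul _ _).trans ?_
  have h1 : ((((Equiv.Perm.sign π : ℤˣ) : ℤ) : MvPolynomial σ k)).totalDegree = 0 := by
    rcases Int.units_eq_one_or (Equiv.Perm.sign π) with h | h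
    · rw [h]
      simp
    · rw [h]
      simp
  rw [h1, zero_add]
  refine (MvPolynomial.totalDegree_finsetProd _ _).trans ?_
  refine (Finset.sum_le_sum fun i _ => h _ i).trans ?_
  rw [Finset.sum_const, Finset.card_univ, smul_eq_mul]

lemma hgt_div_le {k L : Type} [Field k] [IsAlgClosed k] [CharZero k] [Field L] [Algebra k L]
    [IsFF k L] (a b : L) (hb : b ≠ 0) : hgt k (a / b) ≤ hgt k a + hgt k b := by
  by_cases ha : a = 0
  · rw [ha, zero_div, hgt_zero]
    have := hgt_nonneg (k := k) b
    linarith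
  · rw [div_eq_mul_inv]
    refine (hgt_mul ha (inv_ne_zero hb)).trans ?_
    rw [hgt_inv]

lemma sys_height {k L : Type} [Field k] [IsAlgClosed k] [CharZero k] [Field L] [Algebra k L]
    [IsFF k L] {d : ℕ} (hd : 2 ≤ d) (x : Sg d → L)
    (hco : IsCoprime (num d x) (den d x)) (z w : Sg d → L) (hz : Function.Injective z)
    (hz0 : ∀ j, z j ≠ 0) (hw : ∀ j, (num d x).eval (z j) = w j * (den d x).eval (z j))
    (i : Sg d) (H : ℤ) (hzH : ∀ j, hgt k (z j) ≤ H) (hwH : ∀ j, hgt k (w j) ≤ H) :
    hgt k (x i) ≤ 2 * (((2 * d - 1 : ℕ) * (d + 1) : ℕ) * (2 * (2 * d - 1 : ℕ) * H)) := by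
  classical
  have hd1 : 1 ≤ d := by omega
  set N : ℕ := 2 * d - 1 with hN
  have hcardSg : Fintype.card (Sg d) = N := by
    rw [Fintype.card_sum, Fintype.card_fin, Fintype.card_fin]
    omega
  have hdet := sysM_det hd x hco z w hz hz0 hw
  -- the equation
  have hsys : (sysM z w).mulVec x = fun j => w j * z j ^ d := by
    funext j
    rw [sysM_mulVec hd1, hw j]
    ring
  have hcr : (sysM z w).det * x i = ((sysM z w).updateCol i fun j => w j * z j ^ d).det := by
    rw [← Matrix.cramer_apply, ← hsys, Matrix.cramer_eq_adjugate_mulVec, Matrix.mulVec_mulVec,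
      Matrix.adjugate_mul, Matrix.smul_mulVec, Matrix.one_mulVec, Pi.smul_apply, smul_eq_mul]
  have hxi : x i = ((sysM z w).updateCol i fun j => w j * z j ^ d).det / (sysM z w).det := by
    rw [eq_div_iff hdet, mul_comm]
    exact hcr
  -- the polynomial matrices
  let r : Sg d ⊕ Sg d → L := Sum.elim z w
  let Zp : Sg d → MvPolynomial (Sg d ⊕ Sg d) k := fun j => MvPolynomial.X (Sum.inl j)
  let Wp : Sg d → MvPolynomial (Sg d ⊕ Sg d) k := fun j => MvPolynomial.X (Sum.inr j)
  have hZ : ∀ j, MvPolynomial.aeval r (Zp j) = z j := fun j => by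
    simp only [Zp, MvPolynomial.aeval_X, r, Sum.elim_inl]
  have hW : ∀ j, MvPolynomial.aeval r (Wp j) = w j := fun j => by
    simp only [Wp, MvPolynomial.aeval_X, r, Sum.elim_inr]
  have hM1 : (MvPolynomial.aeval r).mapMatrix (sysM Zp Wp) = sysM z w := by
    ext j i
    rw [AlgHom.mapMatrix_apply, Matrix.map_apply]
    rcases i with i | i
    · simp only [sysM, Matrix.of_apply, Sum.elim_inl, map_sub, map_pow, hZ]
      congr 1
      split_ifs
      · exact hW j
      · exact map_zero _
    · simp only [sysM, Matrix.of_apply, Sum.elim_inr, map_neg, map_mul, map_pow, hZ, hW]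
  have hM2 : (MvPolynomial.aeval r).mapMatrix ((sysM Zp Wp).updateCol i fun j => Wp j * Zp j ^ d) =
      (sysM z w).updateCol i fun j => w j * z j ^ d := by
    rw [← hM1]
    ext j i'
    rw [AlgHom.mapMatrix_apply, Matrix.map_apply, Matrix.updateCol_apply, Matrix.updateCol_apply]
    split_ifs
    · rw [map_mul, map_pow, hZ, hW]
    · rfl
  have hXdeg : ∀ s : Sg d ⊕ Sg d,
      (MvPolynomial.X s : MvPolynomial (Sg d ⊕ Sg d) k).totalDegree ≤ 1 := fun s =>
    (MvPolynomial.totalDegree_X s).le
  have hpow : ∀ (j : Sg d) (m : ℕ), m ≤ d → (Zp j ^ m).totalDegree ≤ d := by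
    intro j m hm
    refine (MvPolynomial.totalDegree_pow _ _).trans ?_
    have := hXdeg (Sum.inl j)
    calc m * (Zp j).totalDegree ≤ m * 1 := Nat.mul_le_mul_left m this
      _ ≤ d := by omega
  have hwz : ∀ (j : Sg d) (m : ℕ), m ≤ d → (Wp j * Zp j ^ m).totalDegree ≤ d + 1 := by
    intro j m hm
    refine (MvPolynomial.totalDegree_mul _ _).trans ?_
    have h1 := hXdeg (Sum.inr j)
    have h2 := hpow j m hm
    have h3 : (Wp j).totalDegree ≤ 1 := h1
    omega
  have hent : ∀ j i', (sysM Zp Wp j i').totalDegree ≤ d + 1 := by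
    intro j i'
    rcases i' with i' | i'
    · simp only [sysM, Matrix.of_apply, Sum.elim_inl]
      refine (MvPolynomial.totalDegree_sub _ _).trans (max_le ?_ ?_)
      · exact (hpow j _ i'.2.le).trans (by omega)
      · split_ifs
        · exact (hXdeg (Sum.inr j)).trans (by omega)
        · rw [MvPolynomial.totalDegree_zero]
          omega
    · simp only [sysM, Matrix.of_apply, Sum.elim_inr]
      rw [MvPolynomial.totalDegree_neg]
      exact hwz j _ (by have := i'.2; omega)
  have hent2 : ∀ j i', (((sysM Zp Wp).updateCol i fun j => Wp j * Zp j ^ d) j i').totalDegree ≤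
      d + 1 := by
    intro j i'
    rw [Matrix.updateCol_apply]
    split_ifs
    · exact hwz j d le_rfl
    · exact hent j i'
  have hH0 : 0 ≤ H := (hgt_nonneg (k := k) _).trans (hzH i)
  have hsum : ∑ a, hgt k (r a) ≤ 2 * (N : ℕ) * H := by
    have h1 : ∀ a, hgt k (r a) ≤ H := by
      intro a
      rcases a with a | a
      · exact hzH a
      · exact hwH a
    refine (Finset.sum_le_sum fun a _ => h1 a).trans ?_
    rw [Finset.sum_const, Finset.card_univ, Fintype.card_sum, hcardSg, nsmul_eq_mul]
    push_cast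
    linarith
  have hbound : ∀ A : Matrix (Sg d) (Sg d) (MvPolynomial (Sg d ⊕ Sg d) k),
      (∀ j i', (A j i').totalDegree ≤ d + 1) →
      hgt k ((MvPolynomial.aeval r).mapMatrix A).det ≤ ((N * (d + 1) : ℕ) : ℤ) * (2 * (N : ℕ) * H) := by
    intro A hA
    rw [← AlgHom.map_det]
    refine (hgt_mvpoly r A.det).trans ?_
    have h1 := totalDegree_det A (d + 1) hA
    rw [hcardSg] at h1
    have h2 : (0 : ℤ) ≤ ∑ a, hgt k (r a) := Finset.sum_nonneg fun a _ => hgt_nonneg (k := k) _
    exact mul_le_mul (by exact_mod_cast h1) hsum h2 (by positivity)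
  have hb1 := hbound _ hent
  have hb2 := hbound _ hent2
  rw [hM1] at hb1
  rw [hM2] at hb2
  rw [hxi]
  refine (hgt_div_le _ _ hdet).trans ?_
  linarith

theorem vht : S_cvh → S_vht := by
  intro hcvh d hd
  obtain ⟨B, hB⟩ := hcvh d hd
  refine ⟨max B (3 * d + 7), fun n hn => ?_⟩
  have hnB : B ≤ n := (le_max_left _ _).trans hn
  have hn3 : 3 * d + 7 ≤ n := (le_max_right _ _).trans hn
  obtain ⟨C0, hC0⟩ := hB n hnB
  refine ⟨2 * (((2 * d - 1) * (d + 1)) * (2 * (2 * d - 1) * C0)), ?_⟩
  intro k L _ _ _ _ _ _ x hx i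
  classical
  have hd1 : 1 ≤ d := by omega
  have : CharZero L := charZero_of_injective_algebraMap (algebraMap k L).injective
  obtain ⟨hco, hper⟩ := hx
  set p := num d x with hp
  set q := den d x with hq
  set f := ratP1 p q d with hf
  have hmax : max p.natDegree q.natDegree = d := max_natDegree x hd1
  have hf0 : f none = some 0 := ratP1_none x hd1
  have hf1 : f (some 0) = some 1 := ratP1_zero x hd1 hco
  -- the orbit
  set O : Finset (Option L) := (Finset.range n).image fun m => f^[m] none with hO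
  have hOcard : O.card = n := by
    rw [hO, Finset.card_image_of_injOn, Finset.card_range]
    intro a ha b hb hab
    have := Function.iterate_injOn_Iio_minimalPeriod (f := f) (x := none)
    refine this ?_ ?_ hab
    · rw [Set.mem_Iio, hper]
      simpa using ha
    · rw [Set.mem_Iio, hper]
      simpa using hb
  have hOmem : ∀ m, f^[m] none ∈ O := by
    intro m
    rw [hO, Finset.mem_image]
    refine ⟨m % n, Finset.mem_range.2 (Nat.mod_lt _ (by omega)), ?_⟩
    rw [← hper]
    exact Function.iterate_mod_minimalPeriod_eq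
  have hOst : ∀ z ∈ O, f z ∈ O := by
    intro z hz
    rw [hO, Finset.mem_image] at hz
    obtain ⟨m, -, rfl⟩ := hz
    have := hOmem (m + 1)
    rwa [Function.iterate_succ_apply'] at this
  have hnone : none ∈ O := hOmem 0
  have h0 : some 0 ∈ O := by
    have := hOst _ hnone
    rwa [hf0] at this
  have h1 : some 1 ∈ O := by
    have := hOst _ h0
    rwa [hf1] at this
  obtain ⟨p', q', P', c, hp', hq', hco', hst, hc, hcP, hmem⟩ := stable_red d hd p q hmax hco O hOst
  have hc0 : c ≠ 0 := by
    rintro rfl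
    exact hcP h0
  have hc1 : c ≠ 1 := by
    rintro rfl
    exact hcP h1
  set H : ℤ := C0 * max (canDeg k L) 0 with hH
  have hH0 : 0 ≤ H := by positivity
  -- the heights of the points of the orbit
  have hz : ∀ z : L, some z ∈ O → hgt k z ≤ H := by
    intro z hzP
    by_cases hz0 : z = 0
    · rw [hz0, hgt_zero]
      exact hH0
    have hzc : z ≠ c := by
      rintro rfl
      exact hcP hzP
    apply hC0 k L p' q' hp' hq' hco' P' hst (hc.trans hOcard)
    have hzc' : z - c ≠ 0 := sub_ne_zero.2 hzc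
    have h1c : (1 : L) - c ≠ 0 := sub_ne_zero.2 (Ne.symm hc1)
    have h0c : (0 : L) - c ≠ 0 := by rw [zero_sub]; exact neg_ne_zero.2 hc0
    refine ⟨phc c (some 0), hmem _ h0, phc c (some 1), hmem _ h1, phc c none, hmem _ hnone,
      phc c (some z), hmem _ hzP, ?_, ?_, ?_, ?_, ?_, ?_⟩
    · show (0 - c)⁻¹ ≠ (1 - c)⁻¹
      intro h
      have := inv_injective h
      exact zero_ne_one (sub_left_injective this)
    · show (0 - c)⁻¹ ≠ 0
      exact inv_ne_zero h0c
    · show (1 - c)⁻¹ ≠ 0
      exact inv_ne_zero h1c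
    · show (z - c)⁻¹ ≠ 0
      exact inv_ne_zero hzc'
    · show (z - c)⁻¹ ≠ (0 - c)⁻¹
      intro h
      have := inv_injective h
      exact hz0 (sub_left_injective this)
    · show z = (((z - c)⁻¹ - (0 - c)⁻¹) * ((1 - c)⁻¹ - 0)) / (((z - c)⁻¹ - 0) * ((1 - c)⁻¹ - (0 - c)⁻¹))
      rw [zero_sub]
      field_simp
      ring
  -- the finite points with a finite value
  let T : Finset L := ((Finset.eraseNone O).erase 0).filter fun z => q.eval z ≠ 0
  have hTcard : 2 * d - 1 ≤ T.card := by
    have h2 : (Finset.eraseNone O).card + 1 = O.card := by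
      rw [Finset.card_eraseNone_of_mem hnone]
      have : 0 < O.card := Finset.card_pos.2 ⟨_, hnone⟩
      omega
    have hq0 : q ≠ 0 := (den_monic x hd1).ne_zero
    have h3 : (((Finset.eraseNone O).erase 0).filter fun z => ¬ q.eval z ≠ 0).card ≤ d := by
      have h4 : (((Finset.eraseNone O).erase 0).filter fun z => ¬ q.eval z ≠ 0) ⊆
          q.roots.toFinset := by
        intro z hz
        rw [Finset.mem_filter] at hz
        rw [Multiset.mem_toFinset, mem_roots hq0, IsRoot.def]
        exact not_not.1 hz.2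
      refine (Finset.card_le_card h4).trans ((Multiset.toFinset_card_le _).trans
        ((card_roots' q).trans ?_))
      rw [← hmax]
      exact le_max_right _ _
    have h5 := Finset.card_filter_add_card_filter_not (s := (Finset.eraseNone O).erase 0)
      (fun z => q.eval z ≠ 0)
    have h6 : T.card = (((Finset.eraseNone O).erase 0).filter fun z => q.eval z ≠ 0).card := rfl
    have h7 : (Finset.eraseNone O).card ≤ ((Finset.eraseNone O).erase 0).card + 1 := by
      have := Finset.pred_card_le_card_erase (s := Finset.eraseNone O) (a := (0 : L))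
      omega
    omega
  obtain ⟨T', hT'sub, hT'card⟩ := Finset.exists_subset_card_eq hTcard
  have hcard : Fintype.card (Sg d) = Fintype.card T' := by
    rw [Fintype.card_sum, Fintype.card_fin, Fintype.card_fin, Fintype.card_coe, hT'card]
    omega
  let e : Sg d ≃ T' := Fintype.equivOfCardEq hcard
  have hzT : ∀ j, ((e j : L)) ∈ T := fun j => hT'sub (e j).2
  have hprop : ∀ z ∈ T, some z ∈ O ∧ z ≠ 0 ∧ q.eval z ≠ 0 ∧ some (p.eval z / q.eval z) ∈ O := by
    intro z hzm
    rw [Finset.mem_filter, Finset.mem_erase, Finset.mem_eraseNone] at hzm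
    refine ⟨hzm.1.2, hzm.1.1, hzm.2, ?_⟩
    have h2 := hOst _ hzm.1.2
    rwa [hf, ratP1_some p q d z hzm.2] at h2
  have hmain := sys_height (k := k) hd x hco (fun j => (e j : L))
    (fun j => p.eval (e j : L) / q.eval (e j : L))
    (fun a b hab => e.injective (Subtype.ext hab)) (fun j => (hprop _ (hzT j)).2.1)
    (fun j => (div_mul_cancel₀ _ (hprop _ (hzT j)).2.2.1).symm) i H
    (fun j => hz _ (hprop _ (hzT j)).1) (fun j => hz _ (hprop _ (hzT j)).2.2.2)
  refine hmain.trans (le_of_eq ?_)
  rw [hH]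
  push_cast
  ring

end Pool.Agent.Q225.GT
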