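import Pool.Agent.Q41.GT.Stm2

/-! Job GT-H4 of project GT (helper41): nondegeneracy. -/

namespace Pool.Agent.Q225.GT

open Finset Polynomial FF
open Pool.Agent.Q41.SU Pool.Agent.Q41.GT

/-- the polynomial of a linear form -/
noncomputable def GG {E : Type} [Field E] {a b : ℕ} (φ : II a b → ℕ × ℕ) (α : II a b → E) :
    E[X][X] := ∑ c, monomial (φ c).2 (monomial (φ c).1 (α c))

theorem GG_coeff {E : Type} [Field E] {a b : ℕ} {φ : II a b → ℕ × ℕ}
    (hφ : Function.Injective φ) (α : II a b → E) (c : II a b) :
    ((GG φ α).coeff (φ c).2).coeff (φ c).1 = α c := by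
  unfold GG
  rw [finsetSum_coeff, finsetSum_coeff, Finset.sum_eq_single c]
  · rw [coeff_monomial, if_pos rfl, coeff_monomial, if_pos rfl]
  · intro c' _ hc'
    rw [coeff_monomial]
    split_ifs with h1
    · rw [coeff_monomial, if_neg]
      intro h2
      exact hc' (hφ (Prod.ext h2 h1))
    · exact coeff_zero _
  · intro h
    exact absurd (Finset.mem_univ c) h

theorem GG_eval {E : Type} [Field E] {a b : ℕ} (φ : II a b → ℕ × ℕ) (α : II a b → E) (x y : E) :
    (GG φ α).evalEval x y = ∑ c, α c * (x ^ (φ c).1 * y ^ (φ c).2) := by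
  unfold GG Polynomial.evalEval
  rw [eval_finsetSum, eval_finsetSum]
  refine Finset.sum_congr rfl fun c _ => ?_
  rw [eval_monomial, eval_mul, eval_monomial, ← C_pow, eval_C]
  ring

theorem ndr (h : S_nd.{0}) : S_ndr := by
  classical
  intro d a b φ hφ
  obtain ⟨N₀, hN₀⟩ := h d b (a + b) (1 / 2) (by norm_num)
  refine ⟨max N₀ 1, ?_⟩
  intro k' E _ _ _ _ _ D p q P hND hP
  have hP0 : N₀ ≤ P.card := (le_max_left _ _).trans hP
  have hP1 : 1 ≤ P.card := (le_max_right _ _).trans hP
  set V : E → II a b → E := fun x c => x ^ (φ c).1 * (D x) ^ (φ c).2 with hV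
  have hspan : Submodule.span E (V '' (P : Set E)) = ⊤ := by
    by_contra hne
    obtain ⟨f, hf0, hf⟩ := Submodule.exists_le_ker_of_lt_top _ (lt_top_iff_ne_top.2 hne)
    set α : II a b → E := fun c => f (Pi.single c 1) with hα
    have hfv : ∀ v : II a b → E, f v = ∑ c, α c * v c := by
      intro v
      have e1 : v = ∑ c, v c • (Pi.single c (1 : E) : II a b → E) := by
        funext c
        simp [Finset.sum_apply, Pi.single_apply]
      conv_lhs => rw [e1]
      rw [map_sum]
      refine Finset.sum_congr rfl fun c _ => ?_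
      rw [map_smul, smul_eq_mul, mul_comm]
    have hG0 : GG φ α ≠ 0 := by
      intro h0
      apply hf0
      ext c
      have h1 := GG_coeff hφ.inj α c
      rw [h0] at h1
      simp only [coeff_zero] at h1
      simp only [LinearMap.coe_comp, Function.comp_apply, LinearMap.zero_apply,
        LinearMap.coe_single]
      exact h1.symm
    have hdeg : (GG φ α).natDegree ≤ b := by
      unfold GG
      refine natDegree_sum_le_of_forall_le _ _ fun c _ => ?_
      exact (natDegree_monomial_le _).trans (hφ.le c).1
    have hco : ∀ i, ((GG φ α).coeff i).natDegree ≤ a + b := by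
      intro i
      unfold GG
      rw [finsetSum_coeff]
      refine natDegree_sum_le_of_forall_le _ _ fun c _ => ?_
      rw [coeff_monomial]
      split_ifs
      · refine (natDegree_monomial_le _).trans ?_
        have := (hφ.le c).2
        omega
      · simp
    have hres := hN₀ k' E D p q P hND hP0 (GG φ α) hG0 hdeg hco
    have hset : {x : E | x ∈ P ∧ (GG φ α).evalEval x (D x) = 0} = (P : Set E) := by
      ext x
      constructor
      · exact fun h => h.1
      · intro hx
        refine ⟨hx, ?_⟩
        have h1 : V x ∈ LinearMap.ker f :=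
          hf (Submodule.subset_span ⟨x, hx, rfl⟩)
        rw [LinearMap.mem_ker, hfv] at h1
        rw [GG_eval]
        exact h1
    rw [hset, Set.ncard_coe_finset] at hres
    have h1 : (1 : ℝ) ≤ P.card := by exact_mod_cast hP1
    linarith
  obtain ⟨B, hB, hBs, hBl⟩ := exists_linearIndependent E (V '' (P : Set E))
  rw [hspan] at hBs
  have hBs' : ⊤ ≤ Submodule.span E (Set.range ((↑) : B → (II a b → E))) := by
    rw [Subtype.range_coe]
    exact hBs.ge
  let bas := Module.Basis.mk hBl hBs'
  let e : II a b ≃ B := (Pi.basisFun E (II a b)).indexEquiv bas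
  have hx : ∀ l : II a b, ∃ x : E, x ∈ P ∧ V x = (e l : II a b → E) := by
    intro l
    obtain ⟨x, hx, hx'⟩ := hB (e l).2
    exact ⟨x, hx, hx'⟩
  choose x hxP hxV using hx
  have hli : LinearIndependent E (fun l => V (x l)) := by
    have : (fun l => V (x l)) = ((↑) : B → (II a b → E)) ∘ e := funext fun l => hxV l
    rw [this]
    exact hBl.comp e e.injective
  refine ⟨x, ?_, hxP, ?_⟩
  · intro l m hlm
    apply e.injective
    apply Subtype.ext
    rw [← hxV l, ← hxV m, hlm]
  · have h1 : IsUnit (Matrix.of fun l c : II a b => x l ^ (φ c).1 * (D (x l)) ^ (φ c).2) := by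
      rw [← Matrix.linearIndependent_rows_iff_isUnit]
      exact hli
    rw [Matrix.isUnit_iff_isUnit_det] at h1
    exact h1.ne_zero

end Pool.Agent.Q225.GT
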