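import Pool.Agent.Q41.GT.Stm5

/-!
# GT-R7 (helper225): the moduli spaces are not empty
-/

set_option autoImplicit false

namespace Pool.Agent.Q225.GT

open Finset Polynomial
open Pool.Agent.Q41.GT
open Pool.Agent.W277.UH (ratP1)

theorem rat_pow (d : ℕ) (z : ℂ) :
    ratP1 (X ^ d : ℂ[X]) 1 d (some z) = some (z ^ d) := by
  simp [ratP1]

theorem iter_pow (d : ℕ) (z : ℂ) (m : ℕ) :
    (ratP1 (X ^ d : ℂ[X]) 1 d)^[m] (some z) = some (z ^ (d ^ m)) := by
  induction m with
  | zero => simp
  | succ m ih =>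
    rw [Function.iterate_succ_apply', ih, rat_pow, ← pow_mul, pow_succ]

theorem nem (h : S_nfm) : S_nem := by
  intro d n hd hn
  have hdn : 1 < d ^ n := Nat.one_lt_pow (by omega) (by omega)
  have hN : d ^ n - 1 ≠ 0 := by omega
  have hz := Complex.isPrimitiveRoot_exp (d ^ n - 1) hN
  set z : ℂ := Complex.exp (2 * Real.pi * Complex.I / ((d ^ n - 1 : ℕ) : ℂ)) with hzdef
  have hz0 : z ≠ 0 := Complex.exp_ne_zero _
  have hiff : ∀ m : ℕ, Function.IsPeriodicPt (ratP1 (X ^ d : ℂ[X]) 1 d) m (some z) ↔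
      (d ^ n - 1) ∣ (d ^ m - 1) := by
    intro m
    unfold Function.IsPeriodicPt Function.IsFixedPt
    rw [iter_pow, Option.some_inj]
    have h1 : 1 ≤ d ^ m := Nat.one_le_pow _ _ (by omega)
    have h2 : z ^ (d ^ m) = z ^ (d ^ m - 1) * z := by
      rw [← pow_succ]
      congr 1
      omega
    rw [h2]
    rw [← hz.pow_eq_one_iff_dvd]
    constructor
    · intro h3
      have : z ^ (d ^ m - 1) * z = 1 * z := by rw [h3, one_mul]
      exact mul_right_cancel₀ hz0 this
    · intro h3
      rw [h3, one_mul]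
  have hmin : Function.minimalPeriod (ratP1 (X ^ d : ℂ[X]) 1 d) (some z) = n := by
    have hn1 : Function.IsPeriodicPt (ratP1 (X ^ d : ℂ[X]) 1 d) n (some z) := (hiff n).2 dvd_rfl
    apply le_antisymm
    · exact hn1.minimalPeriod_le (by omega)
    · by_contra hlt
      push Not at hlt
      set m := Function.minimalPeriod (ratP1 (X ^ d : ℂ[X]) 1 d) (some z) with hm
      have hm0 : 0 < m := hn1.minimalPeriod_pos (by omega)
      have h3 := (hiff m).1 (Function.isPeriodicPt_minimalPeriod _ _)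
      have h4 : d ^ m < d ^ n := Nat.pow_lt_pow_right (by omega) hlt
      have h5 : 1 < d ^ m := Nat.one_lt_pow (by omega) (by omega)
      have h6 := Nat.le_of_dvd (by omega) h3
      omega
  obtain ⟨x, hx, -⟩ := h ℂ d n hd hn (X ^ d) 1 (some z) isCoprime_one_right
    (by rw [natDegree_X_pow, natDegree_one]; omega) hmin
  exact ⟨x, hx.1⟩

end Pool.Agent.Q225.GT
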